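import Pool.Agent.Lib.MP_720dbd_nt.Final

/-! The linearised double shuffle spaces D_r vanish in small even degree. -/

namespace Pool.Agent.Results.MP_720dbd_nt.SmallDegree

/-- Let d be even, 0 < d < r and d (d - 1) / 2 <= r + 1. Then the degree d part of the linearised double
shuffle space D_r is zero. -/
theorem result (r d : ℕ) (hd : Even d) (hd0 : 0 < d) (hdr : d < r) (hr : d * (d - 1) / 2 ≤ r + 1)
    (f : MvPolynomial (Fin r) ℚ) (hf : f.IsHomogeneous d) (hD : Dsh.DShuf f) : f = 0 :=
  Dsh.vanish hd0 hd hdr hr f hf hD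

end Pool.Agent.Results.MP_720dbd_nt.SmallDegree
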